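import Mathlib
import Pool.Agent.Helper696_RF.Alg

/-!
# The curvature ODE in dimension four in block form

`R` is an algebraic curvature tensor on `ℝ⁴`. With the bases `e₀₁ ± e₂₃`, `e₀₂ ∓ e₁₃`, `e₀₃ ± e₁₂` of the
self-dual and anti-self-dual two-forms its curvature operator has blocks `A`, `B`, `C`.
-/

set_option autoImplicit false
set_option linter.all false
open scoped ContDiff Manifold Topology Matrix
open Set Filter

namespace Run7.h967.LG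

open Pool.Agent.QTot Pool.Agent.H858R2 Pool.Agent.Helper696_RF

section
variable {R : T4 4} (hR : IsAlg R)
include hR

theorem zz (i k l : Fin 4) : R i i k l = 0 := by
  have := hR.anti i i k l
  linarith

theorem anti2 (i j k l : Fin 4) : R i j k l = -R i j l k := by
  rw [hR.pair i j k l, hR.anti k l i j, hR.pair l k i j]

theorem zz2 (i j k : Fin 4) : R i j k k = 0 := by
  have := anti2 hR i j k k
  linarith

end

/-- blocks -/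
noncomputable def A11 (R : T4 4) : ℝ := (R 0 1 0 1 + R 2 3 2 3 + 2 * R 0 1 2 3) / 2
noncomputable def A22 (R : T4 4) : ℝ := (R 0 2 0 2 + R 1 3 1 3 - 2 * R 0 2 1 3) / 2
noncomputable def A33 (R : T4 4) : ℝ := (R 0 3 0 3 + R 1 2 1 2 + 2 * R 0 3 1 2) / 2
noncomputable def A12 (R : T4 4) : ℝ := (R 0 1 0 2 - R 0 1 1 3 + R 0 2 2 3 - R 1 3 2 3) / 2
noncomputable def A13 (R : T4 4) : ℝ := (R 0 1 0 3 + R 0 1 1 2 + R 0 3 2 3 + R 1 2 2 3) / 2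
noncomputable def A23 (R : T4 4) : ℝ := (R 0 2 0 3 + R 0 2 1 2 - R 0 3 1 3 - R 1 2 1 3) / 2
noncomputable def C11 (R : T4 4) : ℝ := (R 0 1 0 1 + R 2 3 2 3 - 2 * R 0 1 2 3) / 2
noncomputable def C22 (R : T4 4) : ℝ := (R 0 2 0 2 + R 1 3 1 3 + 2 * R 0 2 1 3) / 2
noncomputable def C33 (R : T4 4) : ℝ := (R 0 3 0 3 + R 1 2 1 2 - 2 * R 0 3 1 2) / 2
noncomputable def C12 (R : T4 4) : ℝ := (R 0 1 0 2 + R 0 1 1 3 - R 0 2 2 3 - R 1 3 2 3) / 2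
noncomputable def C13 (R : T4 4) : ℝ := (R 0 1 0 3 - R 0 1 1 2 - R 0 3 2 3 + R 1 2 2 3) / 2
noncomputable def C23 (R : T4 4) : ℝ := (R 0 2 0 3 - R 0 2 1 2 + R 0 3 1 3 - R 1 2 1 3) / 2
/-- `B i j = ½ R(φ_i⁺, φ_j⁻)` -/
noncomputable def B11 (R : T4 4) : ℝ := (R 0 1 0 1 - R 2 3 2 3) / 2
noncomputable def B12 (R : T4 4) : ℝ := (R 0 1 0 2 + R 0 1 1 3 + R 0 2 2 3 + R 1 3 2 3) / 2
noncomputable def B13 (R : T4 4) : ℝ := (R 0 1 0 3 - R 0 1 1 2 + R 0 3 2 3 - R 1 2 2 3) / 2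
noncomputable def B21 (R : T4 4) : ℝ := (R 0 1 0 2 - R 0 1 1 3 - R 0 2 2 3 + R 1 3 2 3) / 2
noncomputable def B22 (R : T4 4) : ℝ := (R 0 2 0 2 - R 1 3 1 3) / 2
noncomputable def B23 (R : T4 4) : ℝ := (R 0 2 0 3 - R 0 2 1 2 - R 0 3 1 3 + R 1 2 1 3) / 2
noncomputable def B31 (R : T4 4) : ℝ := (R 0 1 0 3 + R 0 1 1 2 - R 0 3 2 3 - R 1 2 2 3) / 2
noncomputable def B32 (R : T4 4) : ℝ := (R 0 2 0 3 + R 0 2 1 2 + R 0 3 1 3 + R 1 2 1 3) / 2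
noncomputable def B33 (R : T4 4) : ℝ := (R 0 3 0 3 - R 1 2 1 2) / 2

/-- the vector `(v 0, v 1, v 2, v 3) = (0,1,2,3)` of indices -/
def vid : Fin 4 → Fin 4 := id

theorem iso_vid (R : T4 4) : iso4 vid R = R 0 2 0 2 + R 0 3 0 3 + R 1 2 1 2 + R 1 3 1 3 - 2 * R 0 1 2 3 := by
  simp [iso4, ev4, vid]

theorem scal_eq {R : T4 4} (hR : IsAlg R) : scal4 R =
    2 * (R 0 1 0 1 + R 0 2 0 2 + R 0 3 0 3 + R 1 2 1 2 + R 1 3 1 3 + R 2 3 2 3) := by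
  have e : scal4 R = ∑ a, ∑ p, R a p a p := by
    simp [scal4, ric4, ev4]
  rw [e]
  simp only [Fin.sum_univ_four]
  rw [zz hR, zz hR, zz hR, zz hR]
  have h : ∀ i j : Fin 4, R j i j i = R i j i j := fun i j => by
    rw [hR.anti j i j i, anti2 hR i j j i]; ring
  rw [h 0 1, h 0 2, h 0 3, h 1 2, h 1 3, h 2 3]
  ring

/-- `iso = 2 (A22 + A33)` -/
theorem iso_block {R : T4 4} (hR : IsAlg R) : iso4 vid R = 2 * (A22 R + A33 R) := by
  have hb := hR.bian 0 1 2 3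
  have h1 := hR.anti 2 0 1 3
  have h2 := hR.pair 1 2 0 3
  rw [iso_vid, A22, A33]
  linarith

theorem scal_block {R : T4 4} (hR : IsAlg R) : scal4 R = 4 * (A11 R + A22 R + A33 R) := by
  have hb := hR.bian 0 1 2 3
  have h1 := hR.anti 2 0 1 3
  have h2 := hR.pair 1 2 0 3
  rw [scal_eq hR, A11, A22, A33]
  linarith

theorem scal_blockC {R : T4 4} (hR : IsAlg R) : scal4 R = 4 * (C11 R + C22 R + C33 R) := by
  have hb := hR.bian 0 1 2 3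
  have h1 := hR.anti 2 0 1 3
  have h2 := hR.pair 1 2 0 3
  rw [scal_eq hR, C11, C22, C33]
  linarith

set_option maxHeartbeats 4000000 in
/-- the reaction terms -/
theorem QQ_blocks {R : T4 4} (hR : IsAlg R) :
    iso4 vid (QQ R) = 4 * (A22 R ^ 2 + A33 R ^ 2 + 2 * A23 R ^ 2 - A12 R ^ 2 - A13 R ^ 2
      + 2 * A11 R * (A22 R + A33 R)
      + (B21 R ^ 2 + B22 R ^ 2 + B23 R ^ 2 + B31 R ^ 2 + B32 R ^ 2 + B33 R ^ 2)) ∧
    scal4 (QQ R) = 8 * ((A11 R + A22 R + A33 R) ^ 2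
      + (B11 R ^ 2 + B12 R ^ 2 + B13 R ^ 2 + B21 R ^ 2 + B22 R ^ 2 + B23 R ^ 2
        + B31 R ^ 2 + B32 R ^ 2 + B33 R ^ 2)) := by
  have hb : R 0 3 1 2 = R 0 2 1 3 - R 0 1 2 3 := by
    have hb := hR.bian 0 1 2 3
    have h1 := hR.anti 2 0 1 3
    have h2 := hR.pair 1 2 0 3
    linarith
  have a10 : ∀ k l, R 1 0 k l = -R 0 1 k l := fun k l => hR.anti 1 0 k l
  have a20 : ∀ k l, R 2 0 k l = -R 0 2 k l := fun k l => hR.anti 2 0 k l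
  have a30 : ∀ k l, R 3 0 k l = -R 0 3 k l := fun k l => hR.anti 3 0 k l
  have a21 : ∀ k l, R 2 1 k l = -R 1 2 k l := fun k l => hR.anti 2 1 k l
  have a31 : ∀ k l, R 3 1 k l = -R 1 3 k l := fun k l => hR.anti 3 1 k l
  have a32 : ∀ k l, R 3 2 k l = -R 2 3 k l := fun k l => hR.anti 3 2 k l
  have b10 : ∀ i j, R i j 1 0 = -R i j 0 1 := fun k l => anti2 hR k l 1 0
  have b20 : ∀ i j, R i j 2 0 = -R i j 0 2 := fun k l => anti2 hR k l 2 0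
  have b30 : ∀ i j, R i j 3 0 = -R i j 0 3 := fun k l => anti2 hR k l 3 0
  have b21 : ∀ i j, R i j 2 1 = -R i j 1 2 := fun k l => anti2 hR k l 2 1
  have b31 : ∀ i j, R i j 3 1 = -R i j 1 3 := fun k l => anti2 hR k l 3 1
  have b32 : ∀ i j, R i j 3 2 = -R i j 2 3 := fun k l => anti2 hR k l 3 2
  have z1 : ∀ i k l, R i i k l = 0 := fun i k l => zz hR i k l
  have z2 : ∀ i j k, R i j k k = 0 := fun i j k => zz2 hR i j k
  have p1 : R 0 2 0 1 = R 0 1 0 2 := hR.pair _ _ _ _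
  have p2 : R 0 3 0 1 = R 0 1 0 3 := hR.pair _ _ _ _
  have p3 : R 1 2 0 1 = R 0 1 1 2 := hR.pair _ _ _ _
  have p4 : R 1 3 0 1 = R 0 1 1 3 := hR.pair _ _ _ _
  have p5 : R 2 3 0 1 = R 0 1 2 3 := hR.pair _ _ _ _
  have p6 : R 0 3 0 2 = R 0 2 0 3 := hR.pair _ _ _ _
  have p7 : R 1 2 0 2 = R 0 2 1 2 := hR.pair _ _ _ _
  have p8 : R 1 3 0 2 = R 0 2 1 3 := hR.pair _ _ _ _
  have p9 : R 2 3 0 2 = R 0 2 2 3 := hR.pair _ _ _ _
  have p10 : R 1 2 0 3 = R 0 3 1 2 := hR.pair _ _ _ _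
  have p11 : R 1 3 0 3 = R 0 3 1 3 := hR.pair _ _ _ _
  have p12 : R 2 3 0 3 = R 0 3 2 3 := hR.pair _ _ _ _
  have p13 : R 1 3 1 2 = R 1 2 1 3 := hR.pair _ _ _ _
  have p14 : R 2 3 1 2 = R 1 2 2 3 := hR.pair _ _ _ _
  have p15 : R 2 3 1 3 = R 1 3 2 3 := hR.pair _ _ _ _
  have e : scal4 (QQ R) = ∑ a, ∑ p, QQ R a p a p := by
    simp [scal4, ric4, ev4]
  constructor
  · rw [iso_vid]
    simp only [QQ, Fin.sum_univ_four, a10, a20, a30, a21, a31, a32, b10, b20, b30, b21, b31, b32,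
      z1, z2, p1, p2, p3, p4, p5, p6, p7, p8, p9, p10, p11, p12, p13, p14, p15, hb,
      A11, A22, A33, A12, A13, A23, B11, B12, B13, B21, B22, B23, B31, B32, B33]
    ring
  · rw [e]
    simp only [QQ, Fin.sum_univ_four, a10, a20, a30, a21, a31, a32, b10, b20, b30, b21, b31, b32,
      z1, z2, p1, p2, p3, p4, p5, p6, p7, p8, p9, p10, p11, p12, p13, p14, p15, hb,
      A11, A22, A33, A12, A13, A23, B11, B12, B13, B21, B22, B23, B31, B32, B33]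
    ring

end Run7.h967.LG
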