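import Mathlib
import Pool.Agent.Helper696_RF.Alg
import Pool.Agent.Helper696_RF.I
import Pool.Agent.Helper696_RF.L
import Pool.Agent.Run7.h967.LG.Alg4

/-!
# Rotations of an algebraic curvature tensor on `ℝ⁴` and the minimal isotropic curvature
-/

set_option autoImplicit false
set_option linter.all false
open scoped ContDiff Manifold Topology Matrix
open Set Filter

namespace Run7.h967.LG

open Pool.Agent.QTot Pool.Agent.H858R2 Pool.Agent.Helper696_RF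

/-- quadratic form of the curvature operator on bivectors -/
def qf (R : T4 4) (φ : Mt 4) : ℝ := ∑ i, ∑ j, ∑ k, ∑ l, R i j k l * φ i j * φ k l

theorem scal4_apply {n : ℕ} (R : T4 n) : scal4 R = ∑ a, ∑ p, R a p a p := by
  simp [scal4, ric4, ev4]

theorem scal4_rot' {n : ℕ} (R : T4 n) (O : Mt n) : scal4 (rot R O) =
    ∑ i, ∑ j, ∑ k, ∑ l, R i j k l * (∑ a, O i a * O k a) * (∑ p, O j p * O l p) := by
  rw [scal4_apply]
  have e1 : ∀ a p, rot R O a p a p = ∑ x : Fin n × Fin n × Fin n × Fin n,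
      R x.1 x.2.1 x.2.2.1 x.2.2.2 * O x.1 a * O x.2.1 p * O x.2.2.1 a * O x.2.2.2 p := by
    intro a p
    simp only [rot, Fintype.sum_prod_type]
  have e2 : ∑ i, ∑ j, ∑ k, ∑ l, R i j k l * (∑ a, O i a * O k a) * (∑ p, O j p * O l p) =
      ∑ x : Fin n × Fin n × Fin n × Fin n, R x.1 x.2.1 x.2.2.1 x.2.2.2 *
        (∑ a, O x.1 a * O x.2.2.1 a) * (∑ p, O x.2.1 p * O x.2.2.2 p) := by
    simp only [Fintype.sum_prod_type]
  rw [e2]
  simp only [e1]
  have e3 : ∀ a, ∑ p, ∑ x : Fin n × Fin n × Fin n × Fin n,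
      R x.1 x.2.1 x.2.2.1 x.2.2.2 * O x.1 a * O x.2.1 p * O x.2.2.1 a * O x.2.2.2 p =
      ∑ x : Fin n × Fin n × Fin n × Fin n, ∑ p,
      R x.1 x.2.1 x.2.2.1 x.2.2.2 * O x.1 a * O x.2.1 p * O x.2.2.1 a * O x.2.2.2 p :=
    fun a => Finset.sum_comm
  simp only [e3]
  rw [Finset.sum_comm]
  refine Finset.sum_congr rfl fun x _ => ?_
  rw [mul_assoc, Finset.sum_mul_sum, Finset.mul_sum]
  refine Finset.sum_congr rfl fun a _ => ?_
  rw [Finset.mul_sum]
  refine Finset.sum_congr rfl fun p _ => ?_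
  ring

/-- the scalar curvature does not depend on the orthonormal frame -/
theorem scal4_rot {n : ℕ} (R : T4 n) {O : Mt n} (hO : Oᵀ * O = 1) : scal4 (rot R O) = scal4 R := by
  have hO' : O * Oᵀ = 1 := mul_eq_one_comm.1 hO
  have h : ∀ i j, ∑ a, O i a * O j a = if i = j then 1 else 0 := by
    intro i j
    have := congrFun (congrFun hO' i) j
    rw [Matrix.mul_apply, Matrix.one_apply] at this
    simpa using this
  rw [scal4_rot', scal4_apply]
  refine Finset.sum_congr rfl fun i _ => Finset.sum_congr rfl fun j _ => ?_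
  simp only [h]
  rw [Finset.sum_eq_single i, Finset.sum_eq_single j]
  · simp
  · intro l _ hl
    simp [hl.symm]
  · intro hh; exact absurd (Finset.mem_univ _) hh
  · intro k _ hk
    refine Finset.sum_eq_zero fun l _ => ?_
    simp [hk.symm]
  · intro hh; exact absurd (Finset.mem_univ _) hh

/-- the bivector `e₀ ∧ e₁ + e₂ ∧ e₃` -/
def Om : Mt 4 := !![0, 1, 0, 0; -1, 0, 0, 0; 0, 0, 0, 1; 0, 0, -1, 0]

/-- the self-dual bivector with coordinates `x, y, z` -/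
def WA (x y z : ℝ) : Mt 4 := !![0, x, y, z; -x, 0, z, -y; -y, -z, 0, x; -z, y, -x, 0]

/-- the anti-self-dual bivector with coordinates `x, y, z` -/
def WC (x y z : ℝ) : Mt 4 := !![0, x, y, z; -x, 0, -z, y; -y, z, 0, -x; -z, -y, x, 0]

theorem qf_Om {R : T4 4} (hR : IsAlg R) : qf R Om = 4 * (R 0 1 0 1 + R 2 3 2 3 + 2 * R 0 1 2 3) := by
  have z1 : ∀ i k l, R i i k l = 0 := fun i k l => zz hR i k l
  have a10 : ∀ k l, R 1 0 k l = -R 0 1 k l := fun k l => hR.anti 1 0 k l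
  have a32 : ∀ k l, R 3 2 k l = -R 2 3 k l := fun k l => hR.anti 3 2 k l
  have b10 : ∀ i j, R i j 1 0 = -R i j 0 1 := fun k l => anti2 hR k l 1 0
  have b32 : ∀ i j, R i j 3 2 = -R i j 2 3 := fun k l => anti2 hR k l 3 2
  have p5 : R 2 3 0 1 = R 0 1 2 3 := hR.pair _ _ _ _
  simp [qf, Om, Fin.sum_univ_four, a10, a32, b10, b32, p5]
  ring

theorem iso_qf {R : T4 4} (hR : IsAlg R) : iso4 vid R = scal4 R / 2 - qf R Om / 4 := by
  rw [qf_Om hR, iso_vid, scal_eq hR]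
  ring

/-- the isotropic curvature in a rotated frame -/
theorem iso_rot {R : T4 4} (hR : IsAlg R) {O : Mt 4} (hO : Oᵀ * O = 1) :
    iso4 vid (rot R O) = scal4 R / 2 - qf R (O * Om * Oᵀ) / 4 := by
  rw [iso_qf (L.isAlg_rot hR O), scal4_rot R hO]
  congr 2
  exact I_quad_rot R O Om

/-- the orthogonal matrix `diag (σ, H)`, `H` the reflection of `ℝ³` that maps `e₁` to `(x,y,z)`;
here `s = 1 / (1 - x)` -/
noncomputable def OO (σ x y z s : ℝ) : Mt 4 :=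
  !![σ, 0, 0, 0; 0, x, y, z; 0, y, 1 - y ^ 2 * s, -(y * z * s);
    0, z, -(y * z * s), 1 - z ^ 2 * s]

theorem OO_orth {σ x y z s : ℝ} (hσ : σ ^ 2 = 1) (h : x ^ 2 + y ^ 2 + z ^ 2 = 1) (hs : s * (1 - x) = 1) :
    (OO σ x y z s)ᵀ * OO σ x y z s = 1 := by
  ext i j
  fin_cases i <;> fin_cases j <;>
    simp [OO, Matrix.mul_apply, Fin.sum_univ_four, Matrix.transpose_apply]
  · linear_combination hσ
  · linear_combination h
  · linear_combination (-(y * (1 + x))) * hs - (y * s) * h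
  · linear_combination (-(z * (1 + x))) * hs - (z * s) * h
  · linear_combination (-(y * (1 + x))) * hs - (y * s) * h
  · linear_combination y ^ 2 * (s ^ 2 * h + (s * (1 + x) - 1) * hs)
  · linear_combination y * z * (s ^ 2 * h + (s * (1 + x) - 1) * hs)
  · linear_combination (-(z * (1 + x))) * hs - (z * s) * h
  · linear_combination y * z * (s ^ 2 * h + (s * (1 + x) - 1) * hs)
  · linear_combination z ^ 2 * (s ^ 2 * h + (s * (1 + x) - 1) * hs)

theorem OO_WC {x y z s : ℝ} (h : x ^ 2 + y ^ 2 + z ^ 2 = 1) (hs : s * (1 - x) = 1) :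
    OO 1 x y z s * Om * (OO 1 x y z s)ᵀ = WC x y z := by
  ext i j
  fin_cases i <;> fin_cases j <;>
    simp [OO, Om, WC, Matrix.mul_apply, Fin.sum_univ_four, Matrix.transpose_apply]
  · ring
  · ring
  · ring
  · ring
  · ring
  · linear_combination (-(1 + x)) * hs - s * h
  · ring
  · linear_combination (1 + x) * hs + s * h
  · ring

theorem OO_WA {x y z s : ℝ} (h : x ^ 2 + y ^ 2 + z ^ 2 = 1) (hs : s * (1 - x) = 1) :
    OO (-1) x y z s * Om * (OO (-1) x y z s)ᵀ = -WA x y z := by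
  ext i j
  fin_cases i <;> fin_cases j <;>
    simp [OO, Om, WA, Matrix.mul_apply, Fin.sum_univ_four, Matrix.transpose_apply]
  · ring
  · ring
  · ring
  · ring
  · ring
  · linear_combination (-(1 + x)) * hs - s * h
  · ring
  · linear_combination (1 + x) * hs + s * h
  · ring

theorem qf_neg (R : T4 4) (φ : Mt 4) : qf R (-φ) = qf R φ := by
  simp [qf]

theorem qf_WA {R : T4 4} (hR : IsAlg R) (x y z : ℝ) : qf R (WA x y z) =
    8 * (x ^ 2 * A11 R + y ^ 2 * A22 R + z ^ 2 * A33 R + 2 * x * y * A12 R + 2 * x * z * A13 R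
      + 2 * y * z * A23 R) := by
  have z1 : ∀ i k l, R i i k l = 0 := fun i k l => zz hR i k l
  have z2 : ∀ i j k, R i j k k = 0 := fun i j k => zz2 hR i j k
  have a10 : ∀ k l, R 1 0 k l = -R 0 1 k l := fun k l => hR.anti 1 0 k l
  have a20 : ∀ k l, R 2 0 k l = -R 0 2 k l := fun k l => hR.anti 2 0 k l
  have a30 : ∀ k l, R 3 0 k l = -R 0 3 k l := fun k l => hR.anti 3 0 k l
  have a21 : ∀ k l, R 2 1 k l = -R 1 2 k l := fun k l => hR.anti 2 1 k l
  have a31 : ∀ k l, R 3 1 k l = -R 1 3 k l := fun k l => hR.anti 3 1 k l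
  have a32 : ∀ k l, R 3 2 k l = -R 2 3 k l := fun k l => hR.anti 3 2 k l
  have b10 : ∀ i j, R i j 1 0 = -R i j 0 1 := fun k l => anti2 hR k l 1 0
  have b20 : ∀ i j, R i j 2 0 = -R i j 0 2 := fun k l => anti2 hR k l 2 0
  have b30 : ∀ i j, R i j 3 0 = -R i j 0 3 := fun k l => anti2 hR k l 3 0
  have b21 : ∀ i j, R i j 2 1 = -R i j 1 2 := fun k l => anti2 hR k l 2 1
  have b31 : ∀ i j, R i j 3 1 = -R i j 1 3 := fun k l => anti2 hR k l 3 1
  have b32 : ∀ i j, R i j 3 2 = -R i j 2 3 := fun k l => anti2 hR k l 3 2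
  have p1 : R 0 2 0 1 = R 0 1 0 2 := hR.pair _ _ _ _
  have p2 : R 0 3 0 1 = R 0 1 0 3 := hR.pair _ _ _ _
  have p3 : R 1 2 0 1 = R 0 1 1 2 := hR.pair _ _ _ _
  have p4 : R 1 3 0 1 = R 0 1 1 3 := hR.pair _ _ _ _
  have p5 : R 2 3 0 1 = R 0 1 2 3 := hR.pair _ _ _ _
  have p6 : R 0 3 0 2 = R 0 2 0 3 := hR.pair _ _ _ _
  have p7 : R 1 2 0 2 = R 0 2 1 2 := hR.pair _ _ _ _
  have p8 : R 1 3 0 2 = R 0 2 1 3 := hR.pair _ _ _ _
  have p9 : R 2 3 0 2 = R 0 2 2 3 := hR.pair _ _ _ _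
  have p10 : R 1 2 0 3 = R 0 3 1 2 := hR.pair _ _ _ _
  have p11 : R 1 3 0 3 = R 0 3 1 3 := hR.pair _ _ _ _
  have p12 : R 2 3 0 3 = R 0 3 2 3 := hR.pair _ _ _ _
  have p13 : R 1 3 1 2 = R 1 2 1 3 := hR.pair _ _ _ _
  have p14 : R 2 3 1 2 = R 1 2 2 3 := hR.pair _ _ _ _
  have p15 : R 2 3 1 3 = R 1 3 2 3 := hR.pair _ _ _ _
  simp [qf, WA, Fin.sum_univ_four, a10, a20, a30, a21, a31, a32, b10, b20, b30, b21, b31, b32,
      z1, z2, p1, p2, p3, p4, p5, p6, p7, p8, p9, p10, p11, p12, p13, p14, p15,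
      A11, A22, A33, A12, A13, A23]
  ring

/-- value on the bivector `u φ₁⁺ + x φ₁⁻ + y φ₂⁻ + z φ₃⁻` -/
theorem qf_mix {R : T4 4} (hR : IsAlg R) (u x y z : ℝ) : qf R (WA u 0 0 + WC x y z) =
    8 * (u ^ 2 * A11 R + 2 * u * (x * B11 R + y * B12 R + z * B13 R)
      + (x ^ 2 * C11 R + y ^ 2 * C22 R + z ^ 2 * C33 R + 2 * x * y * C12 R + 2 * x * z * C13 R
      + 2 * y * z * C23 R)) := by
  have z1 : ∀ i k l, R i i k l = 0 := fun i k l => zz hR i k l
  have z2 : ∀ i j k, R i j k k = 0 := fun i j k => zz2 hR i j k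
  have a10 : ∀ k l, R 1 0 k l = -R 0 1 k l := fun k l => hR.anti 1 0 k l
  have a20 : ∀ k l, R 2 0 k l = -R 0 2 k l := fun k l => hR.anti 2 0 k l
  have a30 : ∀ k l, R 3 0 k l = -R 0 3 k l := fun k l => hR.anti 3 0 k l
  have a21 : ∀ k l, R 2 1 k l = -R 1 2 k l := fun k l => hR.anti 2 1 k l
  have a31 : ∀ k l, R 3 1 k l = -R 1 3 k l := fun k l => hR.anti 3 1 k l
  have a32 : ∀ k l, R 3 2 k l = -R 2 3 k l := fun k l => hR.anti 3 2 k l
  have b10 : ∀ i j, R i j 1 0 = -R i j 0 1 := fun k l => anti2 hR k l 1 0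
  have b20 : ∀ i j, R i j 2 0 = -R i j 0 2 := fun k l => anti2 hR k l 2 0
  have b30 : ∀ i j, R i j 3 0 = -R i j 0 3 := fun k l => anti2 hR k l 3 0
  have b21 : ∀ i j, R i j 2 1 = -R i j 1 2 := fun k l => anti2 hR k l 2 1
  have b31 : ∀ i j, R i j 3 1 = -R i j 1 3 := fun k l => anti2 hR k l 3 1
  have b32 : ∀ i j, R i j 3 2 = -R i j 2 3 := fun k l => anti2 hR k l 3 2
  have p1 : R 0 2 0 1 = R 0 1 0 2 := hR.pair _ _ _ _
  have p2 : R 0 3 0 1 = R 0 1 0 3 := hR.pair _ _ _ _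
  have p3 : R 1 2 0 1 = R 0 1 1 2 := hR.pair _ _ _ _
  have p4 : R 1 3 0 1 = R 0 1 1 3 := hR.pair _ _ _ _
  have p5 : R 2 3 0 1 = R 0 1 2 3 := hR.pair _ _ _ _
  have p6 : R 0 3 0 2 = R 0 2 0 3 := hR.pair _ _ _ _
  have p7 : R 1 2 0 2 = R 0 2 1 2 := hR.pair _ _ _ _
  have p8 : R 1 3 0 2 = R 0 2 1 3 := hR.pair _ _ _ _
  have p9 : R 2 3 0 2 = R 0 2 2 3 := hR.pair _ _ _ _
  have p10 : R 1 2 0 3 = R 0 3 1 2 := hR.pair _ _ _ _
  have p11 : R 1 3 0 3 = R 0 3 1 3 := hR.pair _ _ _ _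
  have p12 : R 2 3 0 3 = R 0 3 2 3 := hR.pair _ _ _ _
  have p13 : R 1 3 1 2 = R 1 2 1 3 := hR.pair _ _ _ _
  have p14 : R 2 3 1 2 = R 1 2 2 3 := hR.pair _ _ _ _
  have p15 : R 2 3 1 3 = R 1 3 2 3 := hR.pair _ _ _ _
  simp [qf, WA, WC, Fin.sum_univ_four, a10, a20, a30, a21, a31, a32, b10, b20, b30, b21, b31, b32,
      z1, z2, p1, p2, p3, p4, p5, p6, p7, p8, p9, p10, p11, p12, p13, p14, p15,
      A11, C11, C22, C33, C12, C13, C23, B11, B12, B13]
  ring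

theorem qf_WC {R : T4 4} (hR : IsAlg R) (x y z : ℝ) : qf R (WC x y z) =
    8 * (x ^ 2 * C11 R + y ^ 2 * C22 R + z ^ 2 * C33 R + 2 * x * y * C12 R + 2 * x * z * C13 R
      + 2 * y * z * C23 R) := by
  have h := qf_mix hR 0 x y z
  have e : WA 0 0 0 + WC x y z = WC x y z := by
    ext i j
    fin_cases i <;> fin_cases j <;> simp [WA, WC]
  rw [e] at h
  rw [h]
  ring

theorem WA_anti (x y z : ℝ) : (WA x y z)ᵀ = -WA x y z := by
  ext i j
  fin_cases i <;> fin_cases j <;> simp [WA]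

theorem WC_anti (x y z : ℝ) : (WC x y z)ᵀ = -WC x y z := by
  ext i j
  fin_cases i <;> fin_cases j <;> simp [WC]

end Run7.h967.LG
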