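import Mathlib

/-!
# The barrier functions
-/

set_option autoImplicit false
set_option linter.all false
open Set Filter Topology

namespace Run7.h967.LG

/-- the touching parameter -/
noncomputable def tau (c K θ : ℝ) : ℝ := Real.exp ((K - 1 / θ) / c)

/-- tangent lines of the convex function `x / (K - c log x)` -/
noncomputable def phi (c K θ x : ℝ) : ℝ := (θ + c * θ ^ 2) * x - c * θ ^ 2 * tau c K θ

theorem tau_pos (c K θ : ℝ) : 0 < tau c K θ := Real.exp_pos _

theorem tangent {c θ x q K δ : ℝ} (hc : 0 < c) (hθ : 0 < θ) (hx : 0 < x) (hq : 0 < q)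
    (h : 1 / q ≤ K - δ - c * Real.log x) :
    phi c K θ x + c * θ ^ 2 * x * (Real.log (x / tau c K θ) - (1 - (x / tau c K θ)⁻¹))
      + δ * θ ^ 2 * x ≤ q * x := by
  set τ := tau c K θ with hτ
  have hτ0 : 0 < τ := tau_pos _ _ _
  set r := x / τ with hr
  have hr0 : 0 < r := div_pos hx hτ0
  have hlogr : c * Real.log r = c * Real.log x - K + 1 / θ := by
    rw [hr, Real.log_div hx.ne' hτ0.ne', hτ, tau, Real.log_exp]
    field_simp
    ring
  set w := c * θ * Real.log r + δ * θ with hw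
  have h1 : θ ≤ q * (1 - w) := by
    have h2 : 1 / q ≤ (1 - w) / θ := by
      have : (1 - w) / θ = 1 / θ - c * Real.log r - δ := by
        rw [hw]; field_simp; ring
      rw [this, hlogr]
      linarith
    rw [div_le_div_iff₀ hq hθ] at h2
    linarith
  have h1w : 0 < 1 - w := by
    by_contra hcon
    push Not at hcon
    have : q * (1 - w) ≤ 0 := mul_nonpos_of_nonneg_of_nonpos hq.le hcon
    linarith
  have h3 : θ * (1 + w) ≤ q := by
    have h4 : θ * (1 + w) * (1 - w) ≤ q * (1 - w) := by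
      have : θ * (1 + w) * (1 - w) = θ - θ * w ^ 2 := by ring
      nlinarith [sq_nonneg w]
    exact le_of_mul_le_mul_right h4 h1w
  have h5 : θ * (1 + w) * x ≤ q * x := mul_le_mul_of_nonneg_right h3 hx.le
  have h6 : x * r⁻¹ = τ := by
    rw [hr]; field_simp
  have h7 : θ * (1 + w) * x = phi c K θ x + c * θ ^ 2 * x * (Real.log r - (1 - r⁻¹)) + δ * θ ^ 2 * x := by
    rw [phi, ← hτ, hw]
    have : c * θ ^ 2 * τ = c * θ ^ 2 * (x * r⁻¹) := by rw [h6]
    rw [this]
    ring
  rw [← h7]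
  exact h5

theorem log_ge {r : ℝ} (hr : 0 < r) : 0 ≤ Real.log r - (1 - r⁻¹) := by
  have := Real.one_sub_inv_le_log_of_pos hr
  linarith

theorem log_gt {r : ℝ} (hr : 0 < r) (h1 : r ≠ 1) : 0 < Real.log r - (1 - r⁻¹) := by
  have h2 : Real.log r⁻¹ < r⁻¹ - 1 := by
    apply Real.log_lt_sub_one_of_pos (inv_pos.2 hr)
    intro h
    exact h1 (by rw [← inv_inv r, h, inv_one])
  rw [Real.log_inv] at h2
  linarith

/-- the tangent lines lie below the function -/
theorem phi_lt {c θ x q K δ : ℝ} (hc : 0 < c) (hθ : 0 < θ) (hx : 0 < x) (hq : 0 < q) (hδ : 0 < δ)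
    (h : 1 / q ≤ K - δ - c * Real.log x) : phi c K θ x < q * x := by
  have h1 := tangent hc hθ hx hq h
  have h2 := log_ge (div_pos hx (tau_pos c K θ))
  have h3 : 0 ≤ c * θ ^ 2 * x * (Real.log (x / tau c K θ) - (1 - (x / tau c K θ)⁻¹)) := by positivity
  have h4 : 0 < δ * θ ^ 2 * x := by positivity
  linarith

/-- strict inequality away from the touching point -/
theorem phi_lt' {c θ x q K : ℝ} (hc : 0 < c) (hθ : 0 < θ) (hx : 0 < x) (hq : 0 < q)
    (hne : x ≠ tau c K θ) (h : 1 / q ≤ K - c * Real.log x) : phi c K θ x < q * x := by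
  have h1 := tangent (K := K) (δ := 0) hc hθ hx hq (by linarith)
  have h2 := log_gt (div_pos hx (tau_pos c K θ)) (by
    intro hh
    rw [div_eq_one_iff_eq (tau_pos c K θ).ne'] at hh
    exact hne hh)
  have h3 : 0 < c * θ ^ 2 * x * (Real.log (x / tau c K θ) - (1 - (x / tau c K θ)⁻¹)) := by positivity
  linarith

/-- value at the touching point -/
theorem phi_touch {c θ x K : ℝ} (hx : x = tau c K θ) : phi c K θ x = θ * x := by
  rw [phi, ← hx]; ring

theorem tau_of {c x K θ : ℝ} (hc : 0 < c) (hx : 0 < x) (h : 1 / θ = K - c * Real.log x) :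
    tau c K θ = x := by
  rw [tau, h]
  have : (K - (K - c * Real.log x)) / c = Real.log x := by field_simp; ring
  rw [this, Real.exp_log hx]

theorem tau_le_of {c x K θ : ℝ} (hc : 0 < c) (hx : 0 < x) (h : K - c * Real.log x ≤ 1 / θ) :
    tau c K θ ≤ x := by
  rw [tau]
  have : (K - 1 / θ) / c ≤ Real.log x := by
    rw [div_le_iff₀ hc]
    linarith
  calc Real.exp ((K - 1 / θ) / c) ≤ Real.exp (Real.log x) := Real.exp_le_exp.2 this
    _ = x := Real.exp_log hx

/-- At an optimal tangent line the touching parameter is not larger than `x`. -/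
theorem tau_le {c K θ x S q0 : ℝ} (hc : 0 < c) (hθ : 0 < θ) (hθ0 : θ ≤ q0) (hx : 0 < x)
    (hS : S = phi c K θ x) (hall : ∀ θ' ∈ Icc (0 : ℝ) q0, phi c K θ' x ≤ S) : tau c K θ ≤ x := by
  by_contra hcon
  push Not at hcon
  -- `1 / θ < K - c log x`
  have h1 : 1 / θ < K - c * Real.log x := by
    have h2 : Real.log x < (K - 1 / θ) / c := by
      rw [← Real.log_exp ((K - 1 / θ) / c)]
      exact Real.log_lt_log hx hcon
    rw [lt_div_iff₀ hc] at h2
    linarith
  set κ := K - c * Real.log x with hκ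
  have hκ0 : 0 < κ := lt_trans (by positivity) h1
  have hθκ : 1 / κ < θ := by
    rw [div_lt_iff₀ hκ0]
    rw [div_lt_iff₀ hθ] at h1
    linarith
  have h3 := hall (1 / κ) ⟨by positivity, by linarith⟩
  have h4 : tau c K (1 / κ) = x := tau_of hc hx (by rw [one_div_one_div])
  rw [phi_touch h4.symm] at h3
  have h5 := phi_lt' (q := 1 / κ) (K := K) hc hθ hx (by positivity) hcon.ne (by rw [one_div_one_div])
  linarith

/-- positivity of the optimal value -/
theorem exists_pos {c K x q0 : ℝ} (hc : 0 < c) (hq0 : 0 < q0) (hx : 0 < x) :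
    ∃ θ ∈ Icc (0 : ℝ) q0, 0 < phi c K θ x := by
  set κ := max (1 / q0) (K - c * Real.log x) with hκ
  have h1 : 1 / q0 ≤ κ := le_max_left _ _
  have h2 : K - c * Real.log x ≤ κ := le_max_right _ _
  have hκ0 : 0 < κ := lt_of_lt_of_le (by positivity) h1
  refine ⟨1 / κ, ⟨by positivity, ?_⟩, ?_⟩
  · rw [div_le_iff₀ hκ0]
    rw [div_le_iff₀ hq0] at h1
    linarith
  · have h3 : tau c K (1 / κ) ≤ x := tau_le_of hc hx (by rw [one_div_one_div]; exact h2)
    rw [phi]
    have h4 : c * (1 / κ) ^ 2 * tau c K (1 / κ) ≤ c * (1 / κ) ^ 2 * x :=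
      mul_le_mul_of_nonneg_left h3 (by positivity)
    have h5 : 0 < 1 / κ * x := by positivity
    nlinarith

/-- the ODE inequality -/
theorem ode {c K θ x S iq sq β : ℝ} (hc : 0 < c) (hθ : 0 < θ) (hθ0 : θ ≤ 1 / 2 - 2 * c)
    (hx : 0 < x) (hS : S = phi c K θ x) (hτ : tau c K θ ≤ x) (h3 : 3 * S ≤ 2 * x) (hβ : 0 ≤ β)
    (hi : 2 * (2 * x * S - 3 / 2 * S ^ 2 + β) ≤ iq) (hs : sq ≤ 2 * (x ^ 2 + (x - S) ^ 2 + β)) :
    0 < iq - (θ + c * θ ^ 2) * sq := by
  set m := θ + c * θ ^ 2 with hm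
  have hθ1 : θ < 1 / 2 := by linarith
  have hc1 : c < 1 / 4 := by linarith
  have hm0 : 0 < m := by positivity
  have hm1 : m < 1 := by nlinarith
  have hS1 : θ * x ≤ S := by
    rw [hS, phi]
    have : c * θ ^ 2 * tau c K θ ≤ c * θ ^ 2 * x := mul_le_mul_of_nonneg_left hτ (by positivity)
    nlinarith
  have h4 : m * sq ≤ m * (2 * (x ^ 2 + (x - S) ^ 2 + β)) := mul_le_mul_of_nonneg_left hs hm0.le
  -- `P(S) - P(θ x) = (S - θ x) (2 x - 3/2 (S + θ x) + 2 m x - m (S + θ x))`
  have hfac : 0 ≤ (S - θ * x) * (2 * x - 3 / 2 * (S + θ * x) + 2 * m * x - m * (S + θ * x)) := by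
    apply mul_nonneg (by linarith)
    have h5 : S + θ * x ≤ 2 * S := by linarith
    have h6 : 3 / 2 * (S + θ * x) ≤ 2 * x := by linarith
    have h7 : m * (S + θ * x) ≤ m * (2 * x) := by
      apply mul_le_mul_of_nonneg_left _ hm0.le
      linarith
    nlinarith
  have hP : 0 < x ^ 2 * θ ^ 2 * ((1 / 2 - 2 * c - θ) + c * θ * (2 - θ)) := by
    have : 0 < c * θ * (2 - θ) := by
      apply mul_pos (by positivity)
      linarith
    have h8 : 0 < (1 / 2 - 2 * c - θ) + c * θ * (2 - θ) := by linarith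
    positivity
  have hid : 2 * x * (θ * x) - 3 / 2 * (θ * x) ^ 2 - m * (x ^ 2 + (x - θ * x) ^ 2) =
      x ^ 2 * θ ^ 2 * ((1 / 2 - 2 * c - θ) + c * θ * (2 - θ)) := by
    rw [hm]; ring
  have hβ' : 0 ≤ (1 - m) * β := mul_nonneg (by linarith) hβ
  nlinarith

end Run7.h967.LG
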