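import Mathlib
import Pool.Agent.Helper696_RF.Defs

/-!
# Ancient Ricci flows: definitions

Metrics on an `n`-manifold `M` (`Metric n M`), the Ricci tensor `Ric`, the curvature tensor `Rc` and the curvature
`cv` of vectors are those of `Pool.Agent.H858R2.Defs`, `Pool.Agent.QTot.Defs` and `Pool.Agent.Helper696_RF.Defs`.
-/

set_option autoImplicit false
open scoped ContDiff Manifold Topology Matrix
open Set Filter

namespace Run7.h967.LG

open Pool.Agent.QTot Pool.Agent.H858R2 Pool.Agent.Helper696_RF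

section
variable {n : ℕ} {M : Type} [TopologicalSpace M] [ChartedSpace (En n) M]

/-- `g t`, `t ≤ 0`, is an ancient solution of the Ricci flow: smooth in time and space together, with
`∂_t g = -2 Ric(g)` in every chart. -/
structure IsAncientFlow (g : ℝ → Metric n M) : Prop where
  smooth : ∀ e ∈ atlas (En n) M, ∀ i j, ContDiffOn ℝ ∞ (fun p : ℝ × Eu n => (g p.1).G e p.2 i j)
    (Iic 0 ×ˢ ctarget e)
  flow : ∀ e ∈ atlas (En n) M, ∀ y ∈ ctarget e, ∀ t ≤ 0, ∀ i j,
    HasDerivWithinAt (fun τ => (g τ).G e y i j) (-2 * Ric ((g t).G e) y i j) (Iic 0) t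

/-- The scalar curvature `g^{ij} Ric_{ij}` at the point with coordinates `y` in the chart `e`. -/
noncomputable def scalCurv (g : Metric n M) (e : OpenPartialHomeomorph M (En n)) (y : Eu n) : ℝ :=
  ∑ i, ∑ j, (g.G e y)⁻¹ i j * Ric (g.G e) y i j

/-- `v 0, v 1, v 2, v 3` are orthonormal tangent vectors at the point with coordinates `y` in the chart `e`. -/
def IsFrame (g : Metric n M) (e : OpenPartialHomeomorph M (En n)) (y : Eu n) (v : Fin 4 → Eu n) : Prop :=
  ∀ a b, ip (g.G e y) (v a) (v b) = if a = b then 1 else 0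

/-- The isotropic curvature `R_{0202} + R_{0303} + R_{1212} + R_{1313} - 2 R_{0123}` of `v 0, v 1, v 2, v 3`. -/
noncomputable def isoCurv (g : Metric n M) (e : OpenPartialHomeomorph M (En n)) (y : Eu n)
    (v : Fin 4 → Eu n) : ℝ :=
  cv (g.G e) y (v 0) (v 2) (v 0) (v 2) + cv (g.G e) y (v 0) (v 3) (v 0) (v 3)
    + cv (g.G e) y (v 1) (v 2) (v 1) (v 2) + cv (g.G e) y (v 1) (v 3) (v 1) (v 3)
    - 2 * cv (g.G e) y (v 0) (v 1) (v 2) (v 3)

end

end Run7.h967.LG
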