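import Mathlib
import Pool.Agent.Helper696_RF.H
import Pool.Agent.Helper696_RF.L
import Pool.Agent.Run7.h967.LG.Defs
import Pool.Agent.Run7.h967.LG.React
import Pool.Agent.Run7.h967.LG.Barrier

/-!
# The maximum principle for the isotropic curvature
-/

set_option autoImplicit false
set_option linter.all false
open scoped ContDiff Manifold Topology Matrix
open Set Filter

namespace Run7.h967.LG

open Pool.Agent.QTot Pool.Agent.H858R2 Pool.Agent.Helper696_RF

/-- half of the isotropic curvature and a quarter of the scalar curvature of a tensor -/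
noncomputable def sS (R : T4 4) : ℝ := iso4 vid R / 2
noncomputable def sT (R : T4 4) : ℝ := scal4 R / 4

theorem barrier_cont (c K q0 : ℝ) (hc : 0 < c) :
    Continuous (fun θ : Icc (0 : ℝ) q0 => c * (θ : ℝ) ^ 2 * tau c K θ) := by
  rw [continuous_iff_continuousAt]
  intro θ
  by_cases h : (θ : ℝ) = 0
  · -- at `0`
    have h0 : c * (θ : ℝ) ^ 2 * tau c K θ = 0 := by rw [h]; ring
    have hb : ∀ θ' : Icc (0 : ℝ) q0, |c * (θ' : ℝ) ^ 2 * tau c K θ'| ≤ c * (θ' : ℝ) ^ 2 * Real.exp (K / c) := by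
      intro θ'
      have h1 : 0 ≤ (θ' : ℝ) := θ'.2.1
      rw [abs_of_nonneg (by have := tau_pos c K θ'; positivity)]
      apply mul_le_mul_of_nonneg_left _ (by positivity)
      rw [tau]
      apply Real.exp_le_exp.2
      rw [div_le_div_iff_of_pos_right hc]
      have : 0 ≤ 1 / (θ' : ℝ) := by positivity
      linarith
    rw [ContinuousAt, h0]
    refine squeeze_zero_norm (a := fun θ' : Icc (0 : ℝ) q0 => c * (θ' : ℝ) ^ 2 * Real.exp (K / c)) (fun θ' => ?_) ?_
    · rw [Real.norm_eq_abs]; exact hb θ'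
    · have : Continuous (fun θ' : Icc (0 : ℝ) q0 => c * (θ' : ℝ) ^ 2 * Real.exp (K / c)) := by fun_prop
      have h2 := this.tendsto θ
      rw [h] at h2
      simpa using h2
  · have h1 : ContinuousAt (fun θ : ℝ => c * θ ^ 2 * tau c K θ) (θ : ℝ) := by
      unfold tau
      have : ContinuousAt (fun θ : ℝ => 1 / θ) (θ : ℝ) := by
        apply ContinuousAt.div continuousAt_const continuousAt_id h
      fun_prop
    exact ContinuousAt.comp (f := fun θ : Icc (0 : ℝ) q0 => (θ : ℝ)) h1 continuous_subtype_val.continuousAt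

/-- The barrier is preserved. -/
theorem preserve {M : Type} [TopologicalSpace M] [ChartedSpace (En 4) M]
    [IsManifold (𝓡 4) ∞ M] [CompactSpace M] {T : ℝ} {g : ℝ → Metric 4 M} (hg : IsRicciFlow T g)
    (hop : ∀ t ∈ Ico 0 T, NonnegOp (g t))
    (hsc : ∀ t ∈ Ico 0 T, ∀ e ∈ atlas (En 4) M, ∀ y ∈ ctarget e, ∀ F : Mt 4,
      Fᵀ * (g t).G e y * F = 1 → 0 < sT (rot (Rc ((g t).G e) y) F))
    {c K : ℝ} (hc : 0 < c) (hc1 : c < 1 / 4)
    (hinit : ∀ e ∈ atlas (En 4) M, ∀ y ∈ ctarget e, ∀ F : Mt 4, Fᵀ * (g 0).G e y * F = 1 →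
      ∀ θ ∈ Icc (0 : ℝ) (1 / 2 - 2 * c),
        phi c K θ (sT (rot (Rc ((g 0).G e) y) F)) < sS (rot (Rc ((g 0).G e) y) F)) :
    ∀ t ∈ Ico 0 T, ∀ e ∈ atlas (En 4) M, ∀ y ∈ ctarget e, ∀ F : Mt 4,
      Fᵀ * (g t).G e y * F = 1 → ∀ θ ∈ Icc (0 : ℝ) (1 / 2 - 2 * c),
        phi c K θ (sT (rot (Rc ((g t).G e) y) F)) < sS (rot (Rc ((g t).G e) y) F) := by
  intro t ht e he y hy F hF θ hθ
  set q0 : ℝ := 1 / 2 - 2 * c with hq0
  have hq0p : 0 < q0 := by rw [hq0]; linarith
  set Lf : Icc (0 : ℝ) q0 → T4 4 →ₗ[ℝ] ℝ := fun θ =>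
    (1 / 2 : ℝ) • iso4 vid - (((θ : ℝ) + c * (θ : ℝ) ^ 2) / 4) • scal4 with hLf
  have hLa : ∀ θ R, Lf θ R = sS R - ((θ : ℝ) + c * (θ : ℝ) ^ 2) * sT R := by
    intro θ R
    rw [hLf]
    simp only [LinearMap.sub_apply, LinearMap.smul_apply, smul_eq_mul, sS, sT]
    ring
  have hmax := maxp hg ht.2 (Θ := Icc (0 : ℝ) q0) Lf
    (fun R => by
      simp only [hLa]
      fun_prop)
    (fun θ _ => c * (θ : ℝ) ^ 2 * tau c K θ) (fun _ _ => 0)
    ((barrier_cont c K q0 hc).comp continuous_fst)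
    (fun θ t => hasDerivAt_const _ _)
    (by
      intro e he y hy F hF θ
      have := hinit e he y hy F hF θ θ.2
      rw [hLa]
      rw [phi] at this
      linarith)
    (by
      intro t' ht' e he y hy hall E hE θ hz
      rw [hLa] at hz
      set R := rot (Rc ((g t').G e) y) E with hRdef
      have htI : t' ∈ Ico 0 T := ⟨ht'.1.le, lt_of_le_of_lt ht'.2 ht.2⟩
      have hRalg : IsAlg R := L.isAlg_rot (L.isAlg_Rc (g t') he hy) E
      have hTpos : 0 < sT R := hsc t' htI e he y hy E hE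
      have hall' : ∀ θ' ∈ Icc (0 : ℝ) q0, phi c K θ' (sT R) ≤ sS R := by
        intro θ' hθ'
        have h1 := hall E hE ⟨θ', hθ'⟩
        rw [hLa] at h1
        rw [phi]
        have e1 : ((⟨θ', hθ'⟩ : Icc (0 : ℝ) q0) : ℝ) = θ' := rfl
        rw [e1] at h1
        linarith
      have hSeq : sS R = phi c K θ (sT R) := by rw [phi]; linarith
      have hθpos : 0 < (θ : ℝ) := by
        rcases θ.2.1.eq_or_lt with h0 | h0
        · exfalso
          obtain ⟨θ', hθ', hpos⟩ := exists_pos (K := K) hc hq0p hTpos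
          have h1 := hall' θ' hθ'
          have h2 : sS R = 0 := by rw [hSeq, phi, ← h0]; ring
          linarith
        · exact h0
      have hmin : ∀ O : Mt 4, Oᵀ * O = 1 → iso4 vid R ≤ iso4 vid (rot R O) := by
        intro O hO
        have h1 := hall (E * O) (L.frame_mul hE hO) θ
        rw [hLa, ← G_rot_mul, ← hRdef] at h1
        have h2 : sT (rot R O) = sT R := by rw [sT, sT, scal4_rot R hO]
        rw [h2] at h1
        have h3 : sS R ≤ sS (rot R O) := by linarith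
        rw [sS, sS] at h3
        linarith
      have hopR : ∀ φ : Mt 4, φᵀ = -φ → 0 ≤ qf R φ := by
        intro φ hφ
        have h1 : qf R φ = qf (Rc ((g t').G e) y) (E * φ * Eᵀ) := I_quad_rot _ _ _
        rw [h1]
        apply hop t' htI e he y hy
        rw [Matrix.transpose_mul, Matrix.transpose_mul, Matrix.transpose_transpose, hφ]
        simp only [Matrix.neg_mul, Matrix.mul_neg, Matrix.mul_assoc]
      obtain ⟨hS0, h32, β, hβ, hi, hs⟩ := react hRalg hopR hmin (S := sS R) (T := sT R) rfl rfl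
      have hτ := tau_le hc hθpos θ.2.2 hTpos hSeq hall'
      have hfin := ode hc hθpos θ.2.2 hTpos hSeq hτ h32 hβ hi hs
      rw [hLa, add_zero]
      exact hfin)
  have h1 := hmax t ⟨ht.1, le_rfl⟩ e he y hy F hF ⟨θ, hθ⟩
  rw [hLa] at h1
  rw [phi]
  have e1 : ((⟨θ, hθ⟩ : Icc (0 : ℝ) q0) : ℝ) = θ := rfl
  rw [e1] at h1
  linarith

end Run7.h967.LG
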