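import Mathlib
import Pool.Agent.Run7.h967.LG.Main

/-!
# Ancient solutions with slowly degenerating isotropic curvature
-/

set_option autoImplicit false
set_option linter.all false
open scoped ContDiff Manifold Topology Matrix
open Set Filter

namespace Run7.h967.LG

open Pool.Agent.QTot Pool.Agent.H858R2 Pool.Agent.Helper696_RF

section
variable {n : ℕ} {M : Type} [TopologicalSpace M] [ChartedSpace (En n) M]

/-- shift of an ancient flow -/
theorem shift {g : ℝ → Metric n M} (hg : IsAncientFlow g) (s : ℝ) :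
    IsRicciFlow (-s) (fun t => g (s + t)) := by
  constructor
  · intro e he i j
    have h1 := hg.smooth e he i j
    have h2 : ContDiffOn ℝ ∞ (fun p : ℝ × Eu n => ((s + p.1, p.2) : ℝ × Eu n))
        (Ico 0 (-s) ×ˢ ctarget e) := by fun_prop
    refine ContDiffOn.comp h1 h2 ?_
    rintro ⟨t, y⟩ ⟨ht, hy⟩
    refine ⟨?_, hy⟩
    have := ht.2
    simp only [mem_Iic]
    linarith
  · intro e he y hy t ht i j
    have h1 := hg.flow e he y hy (s + t) (by have := ht.2; linarith) i j
    have h2 : HasDerivWithinAt (fun τ : ℝ => s + τ) 1 (Ico 0 (-s)) t := by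
      simpa using (hasDerivWithinAt_id t (Ico 0 (-s))).const_add s
    have h3 : HasDerivWithinAt ((fun τ => (g τ).G e y i j) ∘ fun τ : ℝ => s + τ)
        ((-2 * Ric ((g (s + t)).G e) y i j) * 1) (Ico 0 (-s)) t :=
      HasDerivWithinAt.comp t h1 h2 (by
        intro τ hτ
        have := hτ.2
        simp only [mem_Iic]
        linarith)
    rw [mul_one] at h3
    exact h3

end

/-- the matrix whose columns are the vectors `v a` -/
def fmat (v : Fin 4 → Eu 4) : Mt 4 := Matrix.of fun i a => v a i

section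
variable {M : Type} [TopologicalSpace M] [ChartedSpace (En 4) M]

theorem fmat_frame {g : Metric 4 M} {e : OpenPartialHomeomorph M (En 4)} {y : Eu 4} {v : Fin 4 → Eu 4}
    (hv : IsFrame g e y v) : (fmat v)ᵀ * g.G e y * fmat v = 1 := by
  ext a b
  have h1 := hv a b
  have h2 : ((fmat v)ᵀ * g.G e y * fmat v) a b = ip (g.G e y) (v a) (v b) := by
    unfold ip
    rw [Matrix.mul_apply]
    simp only [Matrix.mul_apply, Matrix.transpose_apply, Finset.sum_mul, fmat, Matrix.of_apply]
    rw [Finset.sum_comm]
    refine Finset.sum_congr rfl fun i _ => Finset.sum_congr rfl fun j _ => ?_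
    ring
  rw [h2, h1, Matrix.one_apply]

theorem frame_fmat {g : Metric 4 M} {e : OpenPartialHomeomorph M (En 4)} {y : Eu 4} {F : Mt 4}
    (hF : Fᵀ * g.G e y * F = 1) : IsFrame g e y (fun a i => F i a) := by
  intro a b
  have h2 : (Fᵀ * g.G e y * F) a b = ip (g.G e y) (fun i => F i a) (fun i => F i b) := by
    unfold ip
    rw [Matrix.mul_apply]
    simp only [Matrix.mul_apply, Matrix.transpose_apply, Finset.sum_mul]
    rw [Finset.sum_comm]
    refine Finset.sum_congr rfl fun i _ => Finset.sum_congr rfl fun j _ => ?_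
    ring
  rw [← h2, hF, Matrix.one_apply]

theorem isoCurv_eq (g : Metric 4 M) (e : OpenPartialHomeomorph M (En 4)) (y : Eu 4) (v : Fin 4 → Eu 4) :
    isoCurv g e y v = 2 * sS (rot (Rc (g.G e) y) (fmat v)) := by
  rw [sS, iso_vid]
  simp only [isoCurv, cv, rot, fmat, Matrix.of_apply]
  ring

theorem scalCurv_eq [IsManifold (𝓡 4) ∞ M] (g : Metric 4 M) {e : OpenPartialHomeomorph M (En 4)} (he : e ∈ atlas (En 4) M)
    {y : Eu 4} (hy : y ∈ ctarget e) {F : Mt 4} (hF : Fᵀ * g.G e y * F = 1) :
    scalCurv g e y = 4 * sT (rot (Rc (g.G e) y) F) := by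
  have hnear := (MaxP.isOpen_ctarget e).mem_nhds hy
  have hG : ∀ i j, ContDiffAt ℝ ∞ (fun y => g.G e y i j) y := fun i j =>
    (g.smooth e he i j).contDiffAt hnear
  have hs : ∀ᶠ z in 𝓝 y, (g.G e z).IsSymm := by
    filter_upwards [hnear] with z hz
    exact MaxP.isSymm_of_posDef (g.posDef e he z hz)
  have hd := MaxP.det_ne g he hy
  have hinv : (g.G e y)⁻¹ = F * Fᵀ := MaxP.frame_inv hF
  set X : Mt 4 := F * Fᵀ with hX
  have hXe : ∀ i j, X i j = ∑ p, F i p * F j p := fun i j => by
    rw [hX, Matrix.mul_apply]; rfl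
  have h1 : scalCurv g e y = ∑ i, ∑ j, ∑ a, ∑ b, X i j * (X a b * Rc (g.G e) y a i b j) := by
    rw [scalCurv]
    refine Finset.sum_congr rfl fun i _ => Finset.sum_congr rfl fun j _ => ?_
    rw [tc_ric hG hs hd i j, hinv, Finset.mul_sum]
    refine Finset.sum_congr rfl fun a _ => ?_
    rw [Finset.mul_sum]
  have h2 : 4 * sT (rot (Rc (g.G e) y) F) = ∑ a, ∑ i, ∑ b, ∑ j, X i j * (X a b * Rc (g.G e) y a i b j) := by
    rw [sT, scal4_rot']
    have e4 : ∀ x : ℝ, 4 * (x / 4) = x := fun x => by ring
    rw [e4]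
    refine Finset.sum_congr rfl fun a _ => Finset.sum_congr rfl fun i _ =>
      Finset.sum_congr rfl fun b _ => Finset.sum_congr rfl fun j _ => ?_
    rw [hXe, hXe]
    ring
  rw [h1, h2]
  calc ∑ i, ∑ j, ∑ a, ∑ b, X i j * (X a b * Rc (g.G e) y a i b j)
      = ∑ i, ∑ a, ∑ j, ∑ b, X i j * (X a b * Rc (g.G e) y a i b j) :=
        Finset.sum_congr rfl fun i _ => Finset.sum_comm
    _ = ∑ i, ∑ a, ∑ b, ∑ j, X i j * (X a b * Rc (g.G e) y a i b j) :=
        Finset.sum_congr rfl fun i _ => Finset.sum_congr rfl fun a _ => Finset.sum_comm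
    _ = _ := Finset.sum_comm

/-- the value at a time `t < 0` -/
theorem before [IsManifold (𝓡 4) ∞ M] [CompactSpace M] {g : ℝ → Metric 4 M} (hg : IsAncientFlow g)
    (hop : ∀ t ≤ 0, NonnegOp (g t))
    (hsc : ∀ t ≤ 0, ∀ e ∈ atlas (En 4) M, ∀ y ∈ ctarget e, 0 < scalCurv (g t) e y)
    {c0 m0 : ℝ} (hm0 : 0 < m0) (hc0 : 0 ≤ c0) (hc1 : c0 < 1 / 2)
    (H : ∀ N : ℝ, ∃ t ≤ -N, ∀ e ∈ atlas (En 4) M, ∀ y ∈ ctarget e, ∀ v : Fin 4 → Eu 4,
      IsFrame (g t) e y v → m0 * scalCurv (g t) e y ≤ isoCurv (g t) e y v ∨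
        (0 < isoCurv (g t) e y v ∧ scalCurv (g t) e y / isoCurv (g t) e y v ≤
          c0 * Real.log (1 / scalCurv (g t) e y) - N))
    {c : ℝ} (hc : c0 / 2 ≤ c) (hcp : 0 < c) (hc4 : c < 1 / 4)
    (hcm : 1 / 2 - 2 * c + c * (1 / 2 - 2 * c) ^ 2 ≤ 2 * m0) :
    ∀ t < 0, ∀ e ∈ atlas (En 4) M, ∀ y ∈ ctarget e, ∀ F : Mt 4, Fᵀ * (g t).G e y * F = 1 →
      (1 / 2 - 2 * c) * sT (rot (Rc ((g t).G e) y) F) ≤ sS (rot (Rc ((g t).G e) y) F) := by
  set q0 : ℝ := 1 / 2 - 2 * c with hq0
  have hq0p : 0 < q0 := by rw [hq0]; linarith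
  -- every large `N` gives a barrier
  have key : ∀ N : ℝ, 0 < N → ∀ t, -N < t → t < 0 → ∀ e ∈ atlas (En 4) M, ∀ y ∈ ctarget e, ∀ F : Mt 4,
      Fᵀ * (g t).G e y * F = 1 →
      phi c (-N / 2 + 1) q0 (sT (rot (Rc ((g t).G e) y) F)) < sS (rot (Rc ((g t).G e) y) F) := by
    intro N hN t htN ht0
    obtain ⟨s, hs, hH⟩ := H N
    have hsn : s < 0 := by linarith
    have hfl := shift hg s
    have h1 := preserve (M := M) hfl (fun t ht => hop _ (by have := ht.2; linarith))
      (fun t ht e he y hy F hF => by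
        have h2 := hsc (s + t) (by have := ht.2; linarith) e he y hy
        rw [scalCurv_eq (g (s + t)) he hy hF] at h2
        linarith) hcp hc4 (K := -N / 2 + 1) (by
        intro e he y hy F hF θ hθ
        simp only [add_zero] at hF ⊢
        have hv := frame_fmat hF
        have hfm : fmat (fun a i => F i a) = F := by ext i j; rfl
        have hsc' := hsc s hsn.le e he y hy
        have hH' := hH e he y hy _ hv
        rw [scalCurv_eq (g s) he hy hF] at hsc' hH'
        rw [isoCurv_eq, hfm] at hH'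
        set S := sS (rot (Rc ((g s).G e) y) F) with hS
        set X := sT (rot (Rc ((g s).G e) y) F) with hX
        have hX0 : 0 < X := by linarith
        rcases hH' with h3 | ⟨h3, h4⟩
        · -- uniformly positive
          have hS0 : 2 * m0 * X ≤ S := by linarith
          have hSp : 0 < S := lt_of_lt_of_le (by positivity) hS0
          rcases hθ.1.eq_or_lt with h0 | h0
          · rw [phi, ← h0]
            simpa using hSp
          · rw [phi]
            have h5 : θ + c * θ ^ 2 ≤ 2 * m0 := by
              refine le_trans ?_ hcm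
              have h6 : θ ^ 2 ≤ q0 ^ 2 := by
                apply pow_le_pow_left₀ hθ.1 hθ.2
              have h7 := hθ.2
              nlinarith
            have h8 : (θ + c * θ ^ 2) * X ≤ 2 * m0 * X := mul_le_mul_of_nonneg_right h5 hX0.le
            have h9 : 0 < c * θ ^ 2 * tau c (-N / 2 + 1) θ := by
              have := tau_pos c (-N / 2 + 1) θ
              positivity
            linarith
        · have hSp : 0 < S := by linarith
          rcases hθ.1.eq_or_lt with h0 | h0
          · rw [phi, ← h0]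
            simpa using hSp
          · have e1 : 4 * X / (2 * S) = 2 * (1 / (S / X)) := by
              field_simp; ring
            have e2 : Real.log (1 / (4 * X)) = - Real.log X - Real.log 4 := by
              rw [one_div, Real.log_inv, Real.log_mul (by norm_num) hX0.ne']
              ring
            rw [e1, e2] at h4
            have hq : 0 < S / X := div_pos hSp hX0
            have hlog4 : 0 < Real.log 4 := Real.log_pos (by norm_num)
            have hq' : 0 < 1 / (S / X) := by positivity
            have hlogX : Real.log X < 0 := by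
              by_contra hcon
              push Not at hcon
              have : c0 * (-Real.log X - Real.log 4) ≤ 0 :=
                mul_nonpos_of_nonneg_of_nonpos hc0 (by linarith)
              linarith
            have h5 : 1 / (S / X) ≤ (-N / 2 + 1) - 1 - c * Real.log X := by
              have h6 : c0 * (-Real.log X - Real.log 4) ≤ c0 * (-Real.log X) :=
                mul_le_mul_of_nonneg_left (by linarith) hc0
              have h7 : c0 / 2 * (-Real.log X) ≤ c * (-Real.log X) :=
                mul_le_mul_of_nonneg_right hc (by linarith)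
              linarith
            have h8 := phi_lt (K := -N / 2 + 1) (δ := 1) hcp h0 hX0 hq (by norm_num) h5
            rw [div_mul_cancel₀ _ hX0.ne'] at h8
            exact h8)
    intro e he y hy F hF
    have h2 := h1 (t - s) ⟨by linarith, by linarith⟩ e he y hy F (by
      simpa using hF) q0 ⟨hq0p.le, le_rfl⟩
    simpa using h2
  intro t ht e he y hy F hF
  -- let `N → ∞`
  set S := sS (rot (Rc ((g t).G e) y) F) with hS
  set X := sT (rot (Rc ((g t).G e) y) F) with hX
  have hX0 : 0 < X := by
    have h2 := hsc t ht.le e he y hy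
    rw [scalCurv_eq (g t) he hy hF] at h2
    linarith
  have hlim : Tendsto (fun N : ℝ => phi c (-N / 2 + 1) q0 X) atTop (𝓝 ((q0 + c * q0 ^ 2) * X - c * q0 ^ 2 * 0)) := by
    unfold phi
    refine tendsto_const_nhds.sub (Tendsto.const_mul _ ?_)
    unfold tau
    refine Real.tendsto_exp_atBot.comp ?_
    refine Tendsto.atBot_div_const hcp ?_
    have h1 : Tendsto (fun N : ℝ => -N / 2) atTop atBot := by
      have : (fun N : ℝ => -N / 2) = fun N => (-(1 / 2)) * N := by funext N; ring
      rw [this]
      exact tendsto_id.const_mul_atTop_of_neg (by norm_num)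
    have h2 : (fun N : ℝ => -N / 2 + 1 - 1 / q0) = fun N => -N / 2 + (1 - 1 / q0) := by
      funext N; ring
    rw [h2]
    exact tendsto_atBot_add_const_right _ _ h1
  have hev : ∀ᶠ N : ℝ in atTop, phi c (-N / 2 + 1) q0 X ≤ S := by
    filter_upwards [eventually_gt_atTop 0, eventually_gt_atTop (-t)] with N h1 h2
    exact (key N h1 t (by linarith) ht e he y hy F hF).le
  have hfin := le_of_tendsto hlim hev
  have : 0 ≤ c * q0 ^ 2 * X := by positivity
  nlinarith

end

end Run7.h967.LG
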