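import Mathlib
import Pool.Agent.Run7.h967.LG.Final

/-!
# The final time
-/

set_option autoImplicit false
set_option linter.all false
open scoped ContDiff Manifold Topology Matrix
open Set Filter

namespace Run7.h967.LG

open Pool.Agent.QTot Pool.Agent.H858R2 Pool.Agent.Helper696_RF

section
variable {n : ℕ} {M : Type} [TopologicalSpace M] [ChartedSpace (En n) M] [IsManifold (𝓡 n) ∞ M]

/-- the curvature is continuous in time, up to the final time -/
theorem tendsto_zero {g : ℝ → Metric n M} (hg : IsAncientFlow g)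
    {e : OpenPartialHomeomorph M (En n)} (he : e ∈ atlas (En n) M) {y : Eu n} (hy : y ∈ ctarget e) :
    Tendsto (fun t => (g t).G e y) (𝓝[<] 0) (𝓝 ((g 0).G e y)) ∧
    Tendsto (fun t => Rc ((g t).G e) y) (𝓝[<] 0) (𝓝 (Rc ((g 0).G e) y)) := by
  have hU := MaxP.isOpen_ctarget e
  have hG : ∀ i j, MaxP.Sm 1 (ctarget e) (fun t y => (g (-t)).G e y i j) := by
    intro i j
    have h1 := hg.smooth e he i j
    have h2 : ContDiffOn ℝ ∞ (fun p : ℝ × Eu n => ((-p.1, p.2) : ℝ × Eu n))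
        (Ico 0 1 ×ˢ ctarget e) := by fun_prop
    refine ContDiffOn.comp h1 h2 ?_
    rintro ⟨t, y⟩ ⟨ht, hy⟩
    refine ⟨?_, hy⟩
    have := ht.1
    simp only [mem_Iic]
    linarith
  have hd : ∀ t ∈ Ico (0 : ℝ) 1, ∀ y ∈ ctarget e, ((g (-t)).G e y).det ≠ 0 := fun t _ y hy =>
    MaxP.det_ne (g (-t)) he hy
  have hin : Tendsto (fun t : ℝ => (-t, y)) (𝓝[<] (0 : ℝ)) (𝓝[Ico 0 1 ×ˢ ctarget e] (0, y)) := by
    rw [tendsto_nhdsWithin_iff]
    constructor
    · have : Continuous (fun t : ℝ => ((-t, y) : ℝ × Eu n)) := by fun_prop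
      have h1 := this.tendsto 0
      rw [neg_zero] at h1
      exact h1.mono_left nhdsWithin_le_nhds
    · have h2 : ∀ᶠ t : ℝ in 𝓝[<] (0 : ℝ), t ∈ Ioo (-1 : ℝ) 0 := Ioo_mem_nhdsLT (by norm_num)
      filter_upwards [h2] with t ht
      exact ⟨⟨by linarith [ht.2], by linarith [ht.1]⟩, hy⟩
  have key : ∀ f : ℝ → Eu n → ℝ, MaxP.Sm 1 (ctarget e) f →
      Tendsto (fun t : ℝ => f (-t) y) (𝓝[<] (0 : ℝ)) (𝓝 (f 0 y)) := by
    intro f hf
    have hc : ContinuousWithinAt (fun p : ℝ × Eu n => f p.1 p.2) (Ico 0 1 ×ˢ ctarget e) (0, y) :=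
      (ContDiffOn.continuousOn hf) (0, y) ⟨⟨le_rfl, one_pos⟩, hy⟩
    exact hc.tendsto.comp hin
  constructor
  · refine tendsto_pi_nhds.mpr fun i => tendsto_pi_nhds.mpr fun j => ?_
    have := key _ (hG i j)
    simpa using this
  · refine tendsto_pi_nhds.mpr fun i => tendsto_pi_nhds.mpr fun j =>
      tendsto_pi_nhds.mpr fun a => tendsto_pi_nhds.mpr fun b => ?_
    have := key _ (MaxP.Sm.rc hU hG hd i j a b)
    simpa using this

/-- a closed condition on the curvature that holds before time `0` holds at time `0` -/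
theorem closed_zero {g : ℝ → Metric n M} (hg : IsAncientFlow g) {C : Set (T4 n)} (hC : IsClosed C)
    (h : ∀ t < 0, ∀ e ∈ atlas (En n) M, ∀ y ∈ ctarget e, ∀ F : Mt n, Fᵀ * (g t).G e y * F = 1 →
      rot (Rc ((g t).G e) y) F ∈ C) :
    ∀ t ≤ 0, ∀ e ∈ atlas (En n) M, ∀ y ∈ ctarget e, ∀ F : Mt n, Fᵀ * (g t).G e y * F = 1 →
      rot (Rc ((g t).G e) y) F ∈ C := by
  intro t ht e he y hy F hF
  rcases ht.lt_or_eq with ht | rfl
  · exact h t ht e he y hy F hF
  obtain ⟨r, hr1, hr2⟩ := MaxP.root_exists n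
  obtain ⟨lG, lR⟩ := tendsto_zero hg he hy
  have hdetF : F.det ≠ 0 := by
    intro h0
    have h1 := congrArg Matrix.det hF
    rw [Matrix.det_mul, h0, mul_zero, Matrix.det_one] at h1
    exact zero_ne_one h1
  have hpos : ∀ t, (Fᵀ * (g t).G e y * F).PosDef := by
    intro t
    have h1 := (g t).posDef e he y hy
    have h2 := h1.conjTranspose_mul_mul_same (B := F) (by
      apply Matrix.mulVec_injective_of_isUnit
      rw [Matrix.isUnit_iff_isUnit_det]
      exact isUnit_iff_ne_zero.mpr hdetF)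
    rwa [Matrix.conjTranspose_eq_transpose_of_trivial] at h2
  have lA : Tendsto (fun t => Fᵀ * (g t).G e y * F) (𝓝[<] 0) (𝓝 1) := by
    rw [← hF]
    exact (tendsto_const_nhds.mul lG).mul tendsto_const_nhds
  have lA' : Tendsto (fun t => Fᵀ * (g t).G e y * F) (𝓝[<] 0)
      (𝓝[{A : Mt n | A.PosDef}] 1) := by
    rw [tendsto_nhdsWithin_iff]
    exact ⟨lA, Eventually.of_forall fun t => hpos t⟩
  have lr : Tendsto (fun t => F * r (Fᵀ * (g t).G e y * F)) (𝓝[<] 0) (𝓝 F) := by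
    have := (tendsto_const_nhds (x := F)).mul (hr2.comp lA')
    rwa [mul_one] at this
  have hfr : ∀ t, (F * r (Fᵀ * (g t).G e y * F))ᵀ * (g t).G e y *
      (F * r (Fᵀ * (g t).G e y * F)) = 1 := by
    intro t
    have := hr1 _ (hpos t)
    rw [← this]
    simp only [Matrix.transpose_mul, Matrix.mul_assoc]
  have lim : Tendsto (fun t => rot (Rc ((g t).G e) y) (F * r (Fᵀ * (g t).G e y * F)))
      (𝓝[<] 0) (𝓝 (rot (Rc ((g 0).G e) y) F)) := MaxP.tendsto_rot lR lr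
  refine hC.mem_of_tendsto lim ?_
  filter_upwards [self_mem_nhdsWithin] with t ht
  exact h t ht e he y hy _ (hfr t)

end

/-- Main theorem. -/
theorem main {M : Type} [TopologicalSpace M] [ChartedSpace (En 4) M]
    [IsManifold (𝓡 4) ∞ M] [CompactSpace M] {g : ℝ → Metric 4 M} (hg : IsAncientFlow g)
    (hop : ∀ t ≤ 0, NonnegOp (g t))
    (hsc : ∀ t ≤ 0, ∀ e ∈ atlas (En 4) M, ∀ y ∈ ctarget e, 0 < scalCurv (g t) e y)
    {c m₀ : ℝ} (hm₀ : 0 < m₀) (hc0 : 0 ≤ c) (hc1 : c < 1 / 2)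
    (H : ∀ N : ℝ, ∃ t ≤ -N, ∀ e ∈ atlas (En 4) M, ∀ y ∈ ctarget e, ∀ v : Fin 4 → Eu 4,
      IsFrame (g t) e y v → m₀ * scalCurv (g t) e y ≤ isoCurv (g t) e y v ∨
        (0 < isoCurv (g t) e y v ∧ scalCurv (g t) e y / isoCurv (g t) e y v ≤
          c * Real.log (1 / scalCurv (g t) e y) - N)) :
    ∃ m > 0, ∀ t ≤ 0, ∀ e ∈ atlas (En 4) M, ∀ y ∈ ctarget e, ∀ v : Fin 4 → Eu 4,
      IsFrame (g t) e y v → m * scalCurv (g t) e y ≤ isoCurv (g t) e y v := by
  obtain ⟨η, hη0, hη1, hη2, hη3⟩ : ∃ η : ℝ, 0 < η ∧ η ≤ m₀ / 2 ∧ η ≤ 1 / 8 ∧ η ≤ (1 / 2 - c) / 2 := by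
    refine ⟨min (m₀ / 2) (min (1 / 8) ((1 / 2 - c) / 2)), ?_, min_le_left _ _,
      (min_le_right _ _).trans (min_le_left _ _), (min_le_right _ _).trans (min_le_right _ _)⟩
    refine lt_min (by linarith) (lt_min (by norm_num) (by linarith))
  have e1 : 1 / 2 - 2 * (1 / 4 - η) = 2 * η := by ring
  have hb := before hg hop hsc hm₀ hc0 hc1 H (c := 1 / 4 - η) (by linarith) (by linarith) (by linarith)
    (by rw [e1]; nlinarith)
  rw [e1] at hb
  have hcl : IsClosed {R : T4 4 | 2 * η * sT R ≤ sS R} := by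
    refine isClosed_le ?_ ?_
    · unfold sT
      have : Continuous (fun R : T4 4 => scal4 R) := LinearMap.continuous_of_finiteDimensional _
      fun_prop
    · unfold sS
      have : Continuous (fun R : T4 4 => iso4 vid R) := LinearMap.continuous_of_finiteDimensional _
      fun_prop
  have hall := closed_zero hg hcl (fun t ht e he y hy F hF => hb t ht e he y hy F hF)
  refine ⟨η, hη0, fun t ht e he y hy v hv => ?_⟩
  have hF := fmat_frame hv
  have h1 : 2 * η * sT (rot (Rc ((g t).G e) y) (fmat v)) ≤ sS (rot (Rc ((g t).G e) y) (fmat v)) :=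
    hall t ht e he y hy _ hF
  rw [isoCurv_eq, scalCurv_eq (g t) he hy hF]
  linarith

end Run7.h967.LG
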